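import Mathlib
import Pool.Agent.Q153.Noise.Main

/-!
# Largest noisy `(k, l)`-sum-free sets in cyclic groups for interval noise

For `C = {0, 1, ..., c - 1}`, `c ≥ 2`, the largest size of a `C`-`(k, l)`-sum-free subset of `ℤ/n` is
`max {0, L}`, and it is attained by an interval.

Proof of the upper bound. Let `A` be a largest `C`-`(k, l)`-sum-free set, `D = k *_C A`, `E = l *_C A`. Then `A`,
`D` and `E` have the same stabiliser `H` (otherwise `A` could be enlarged to `A + stab D` or `A + stab E`). With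
`B = A + C` one has `D = A + (k - 1) B`, `E = A + (l - 1) B`, so Kneser's theorem gives
`2 |A| + (k + l - 2) (|B| - |H|) ≤ n`. If `|B| ≥ |A| + c |H|` this gives `|A| ≤ L`. Otherwise `A` is an
interval modulo `H`, and the condition `D ∩ E = ∅` gives a multiple of `gcd (n, k - l)` between
`l |A| + (l - 1) (c - 2)` and `n - k |A| - (k - 1) (c - 2)`, which again means `|A| ≤ L`.
-/

set_option autoImplicit false

namespace Pool.Agent.Results.MP_4e78b4_co.IntervalNoise

/-- The `m`-fold sumset `m A = A + ... + A` (`m` summands; `{0}` for `m = 0`). -/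
def multiple {n : ℕ} (m : ℕ) (A : Set (ZMod n)) : Set (ZMod n) :=
  {x | ∃ f : Fin m → ZMod n, (∀ i, f i ∈ A) ∧ ∑ i, f i = x}

/-- The noise set `C = {0, 1, ..., c - 1}`, read modulo `n`. -/
def noise (n c : ℕ) : Set (ZMod n) := {x | ∃ j : ℕ, j < c ∧ (j : ZMod n) = x}

/-- `m *_C A = m A + (m - 1) C`. -/
def noisyMultiple {n : ℕ} (c m : ℕ) (A : Set (ZMod n)) : Set (ZMod n) :=
  {x | ∃ y ∈ multiple m A, ∃ z ∈ multiple (m - 1) (noise n c), y + z = x}

/-- `A` is `C`-`(k, l)`-sum-free: `(k *_C A) ∩ (l *_C A) = ∅`. -/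
def SumFree {n : ℕ} (c k l : ℕ) (A : Set (ZMod n)) : Prop :=
  noisyMultiple c k A ∩ noisyMultiple c l A = ∅

/-- The interval `{a, a + 1, ..., a + m - 1}`. -/
def interval {n : ℕ} (a : ZMod n) (m : ℕ) : Set (ZMod n) := {x | ∃ j : ℕ, j < m ∧ a + (j : ZMod n) = x}

/-- `χ = ⌊(n + 2 (c - 2)) / (k + l)⌋ - (c - 2)`. -/
def chi (n k l c : ℕ) : ℤ := ((n : ℤ) + 2 * ((c : ℤ) - 2)) / ((k : ℤ) + l) - ((c : ℤ) - 2)

/-- `r`: the residue of `- k χ - (k - 1) (c - 2)` modulo `δ = gcd (n, k - l)`, `0 ≤ r < δ`. -/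
def residue (n k l c : ℕ) : ℤ :=
  (-(k : ℤ) * chi n k l c - ((k : ℤ) - 1) * ((c : ℤ) - 2)) % (Nat.gcd n (k - l) : ℤ)

/-- `L = ⌊(n + 2 (c - 2) - r) / (k + l)⌋ - (c - 2)`. -/
def bound (n k l c : ℕ) : ℤ :=
  ((n : ℤ) + 2 * ((c : ℤ) - 2) - residue n k l c) / ((k : ℤ) + l) - ((c : ℤ) - 2)

open Pool.Agent.Q153.Noise

lemma bound_eq (n k l c : ℕ) : bound n k l c = bigL n k l c := rfl

open scoped Pointwise in
lemma coe_nf {n : ℕ} [NeZero n] (A : Finset (ZMod n)) (m : ℕ) :
    ((nf A m : Finset (ZMod n)) : Set (ZMod n)) = multiple m (A : Set (ZMod n)) := by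
  induction m with
  | zero =>
    ext x
    simp only [nf_zero, Finset.coe_singleton, Set.mem_singleton_iff, multiple, Set.mem_ofPred_eq]
    constructor
    · rintro rfl
      exact ⟨fun i => i.elim0, fun i => i.elim0, by simp⟩
    · rintro ⟨f, -, hf⟩
      rw [← hf]
      simp
  | succ m ih =>
    ext x
    rw [nf_succ, Finset.coe_add, ih, Set.mem_add]
    constructor
    · rintro ⟨y, ⟨f, hf, rfl⟩, z, hz, rfl⟩
      refine ⟨Fin.snoc f z, ?_, ?_⟩
      · intro i
        refine Fin.lastCases ?_ (fun j => ?_) i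
        · simpa using hz
        · simpa using hf j
      · rw [Fin.sum_univ_castSucc]
        simp
    · rintro ⟨f, hf, rfl⟩
      exact ⟨∑ i : Fin m, f i.castSucc, ⟨fun i => f i.castSucc, fun i => hf _, rfl⟩, f (Fin.last m), hf _,
        (Fin.sum_univ_castSucc f).symm⟩

lemma coe_seg {n : ℕ} [NeZero n] (a : ZMod n) (m : ℕ) :
    ((seg a m : Finset (ZMod n)) : Set (ZMod n)) = interval a m := by
  ext x
  rw [Finset.mem_coe, mem_seg]
  rfl

lemma coe_noise {n : ℕ} [NeZero n] (c : ℕ) :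
    ((seg (0 : ZMod n) c : Finset (ZMod n)) : Set (ZMod n)) = noise n c := by
  ext x
  rw [Finset.mem_coe, mem_seg]
  simp [noise]

open scoped Pointwise in
lemma coe_star {n : ℕ} [NeZero n] (A : Finset (ZMod n)) (c m : ℕ) :
    ((Pool.Agent.Q153.Noise.star A (seg 0 c) m : Finset (ZMod n)) : Set (ZMod n)) = noisyMultiple c m (A : Set (ZMod n)) := by
  unfold Pool.Agent.Q153.Noise.star
  rw [Finset.coe_add, coe_nf, coe_nf, coe_noise]
  rfl

lemma SF_iff {n : ℕ} [NeZero n] (A : Finset (ZMod n)) (c k l : ℕ) :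
    SF k l A (seg 0 c) ↔ SumFree c k l (A : Set (ZMod n)) := by
  unfold SF SumFree
  rw [← Finset.disjoint_coe, coe_star, coe_star, Set.disjoint_iff_inter_eq_empty]

/-- **Full answer to Q1.** For all `n ≥ 1`, `k > l ≥ 1`, `c ≥ 2` the largest size of a `C`-`(k, l)`-sum-free
subset of `ℤ/n`, `C = {0, ..., c - 1}`, is `max {0, L}`, and it is attained by an interval. -/
theorem result : ∀ n k l c : ℕ, 1 ≤ n → 1 ≤ l → l < k → 2 ≤ c →
    IsGreatest {m : ℕ | ∃ A : Set (ZMod n), SumFree c k l A ∧ A.ncard = m}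
      (max 0 (bound n k l c)).toNat ∧
    ∃ a : ZMod n, SumFree c k l (interval a (max 0 (bound n k l c)).toNat) ∧
      (interval a (max 0 (bound n k l c)).toNat).ncard = (max 0 (bound n k l c)).toNat := by
  intro n k l c hn hl hlk hc
  have : NeZero n := ⟨by omega⟩
  have hint : ∃ a : ZMod n, SumFree c k l (interval a (max 0 (bound n k l c)).toNat) ∧
      (interval a (max 0 (bound n k l c)).toNat).ncard = (max 0 (bound n k l c)).toNat := by
    rcases le_or_gt (bound n k l c) 0 with h | h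
    · rw [max_eq_left h]
      refine ⟨0, ?_, ?_⟩
      · have h0 : interval (0 : ZMod n) (0 : ℤ).toNat = ((∅ : Finset (ZMod n)) : Set (ZMod n)) := by
          ext x
          simp [interval]
        rw [h0, ← SF_iff]
        unfold SF
        have h1 : Pool.Agent.Q153.Noise.star (∅ : Finset (ZMod n)) (seg 0 c) k = ∅ := by
          unfold Pool.Agent.Q153.Noise.star
          obtain ⟨j, hj⟩ : ∃ j, k = j + 1 := ⟨k - 1, by omega⟩
          rw [hj, nf_succ]
          simp
        rw [h1]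
        exact Finset.disjoint_empty_left _
      · have h0 : interval (0 : ZMod n) (0 : ℤ).toNat = ∅ := by
          ext x
          simp [interval]
        rw [h0]
        simp
    · rw [max_eq_right h.le]
      obtain ⟨m, hm⟩ : ∃ m : ℕ, (m : ℤ) = bound n k l c := ⟨(bound n k l c).toNat, Int.toNat_of_nonneg h.le⟩
      have hm1 : 1 ≤ m := by
        have : (0 : ℤ) < m := by rw [hm]; exact h
        exact_mod_cast this
      have hm2 : (bound n k l c).toNat = m := by rw [← hm]; simp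
      rw [hm2]
      obtain ⟨s, hs, hmn⟩ := exists_interval (n := n) hl hlk hc m hm1 (by rw [hm, bound_eq])
      refine ⟨s, ?_, ?_⟩
      · rw [← coe_seg, ← SF_iff]
        exact hs
      · rw [← coe_seg, Set.ncard_coe_finset, card_seg hmn]
  refine ⟨⟨?_, ?_⟩, hint⟩
  · obtain ⟨a, h1, h2⟩ := hint
    exact ⟨_, h1, h2⟩
  · rintro m ⟨A, hA, rfl⟩
    have hfin : A.Finite := Set.toFinite A
    obtain ⟨A', hA'⟩ : ∃ A' : Finset (ZMod n), (A' : Set (ZMod n)) = A := ⟨hfin.toFinset, hfin.coe_toFinset⟩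
    rw [← hA'] at hA ⊢
    rw [Set.ncard_coe_finset]
    rcases A'.eq_empty_or_nonempty with h | h
    · rw [h]
      simp
    · have h1 := upper hl hlk hc A' ((SF_iff A' c k l).2 hA) h
      rw [← bound_eq] at h1
      have h2 : (A'.card : ℤ) ≤ max 0 (bound n k l c) := h1.trans (le_max_right _ _)
      have h3 := Int.toNat_le_toNat h2
      simpa using h3

end Pool.Agent.Results.MP_4e78b4_co.IntervalNoise
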